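import Pool.Agent.H93.BT.Fin
import Pool.Agent.H93.BT.Many
import Pool.Agent.H93.BB.Tab
import Pool.Agent.H93.BB.Base

/-!
# No type-2 (black-box) total NP search problem is complete

The computation model is the one of `Pool.Agent.H88.RO.Model`; the type-2 problems are defined in
`Pool.Agent.H93.BB.Defs`, and their Turing reductions in `Pool.Agent.H93.BT.Defs`.

In a type-2 total NP search problem (Beame, Cook, Edmonds, Impagliazzo, Pitassi 1998) an instance
is a string `x` together with an oracle `A`, and every instance, for every oracle, has a solution.
All the usual classes of total NP search problems (PPAD, PLS, PPP, ...) are given by type-2
problems and compared by type-2 reductions.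

Theorem: for every type-2 total NP search problem `T` there is a type-2 total NP search problem
`S` which is not Turing reducible to `T`, not even in quasi-polynomial time.  (Many-one reductions
are a special case, `TFNP2.ReducesWithin.turing`.)

Proof.  Two problems `S0`, `S1` refer to each other (`S0` by its number, which is a part of its
instances).  With `n = 2 ^ m`:

* a solution of the instance `Z = (s, i, κ, j, m, 1^n)` of `S0` is a refutation, of size polynomial
  in `n`, of the statement that Turing reduction number `j` from `S1` (with parameters `i`, `κ`) to
  `T` is correct at the instance `(j, m)`: a finite oracle and a list of correct answers to the
  questions of the reduction, after which it does not have a solution of `S1`;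
* an instance `(j, m)` of `S1` has a solution for all oracles iff there is no refutation of
  size `2 ^ O(κ)`, where `κ` is polynomial in `m`, of the statement that reduction number `i` from
  `S0` to `T` is correct at the instance `Z`: the oracle is read as a tableau of the exponential time
  computation which verifies such a refutation, and a solution is a local error of the tableau.

`S0` is total: if `Z` has no solution then, as `T` is total, the instance `(j, m)` of `S1` has a
solution for all oracles, so reduction `i` is not refuted at `Z`, so, as `T` is total, it finds a
solution of `Z`.  If `i` is a correct reduction from `S0` to `T` then `S1` is total; but if `j` is a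
correct reduction from `S1` to `T` then `Z` has no solution if `m` is large.

The theorem does not relativise: by `Pool.Agent.H93.BB.exists_base` there is a base oracle
relative to which there is a complete type-2 problem.  (In the proof, computations of exponential
length are checked locally, which is not possible if they query a base oracle.)
-/

namespace Pool.Agent.Results.MP_0a7732_lc.BlackBox

open Pool.Agent.H93.BB

/-- **No type-2 total NP search problem is complete**, not even under quasi-polynomial time
Turing reductions. -/
theorem result (T : TFNP2 zero) : ∃ S : TFNP2 zero, ∀ k : ℕ, ¬ S.TuringWithin (qp k) T := by
  obtain ⟨D⟩ := exists_dat T (fun cW C => by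
    obtain ⟨R1, c1, q1, h1, h2, h3, h4⟩ := exists_TAB cW C
    exact ⟨⟨R1, c1, q1, h1, h2, h3, h4⟩⟩)
  exact no_complete D

end Pool.Agent.Results.MP_0a7732_lc.BlackBox
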