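import Pool.Agent.H65.NU.Down

/-!
# Complete total search problems with advice

The computation model is defined in `Pool.Agent.H88.RO.Model`; the class TFNP/poly (total search
problems with polynomially long advice), its many-one and Turing reductions with advice, and the
classes Σ₂ᵖ, Π₂ᵖ and Σ₂ᵖ/poly are defined in `Pool.Agent.H65.NU.Defs`, all relative to an oracle `O`
(a constant oracle gives the unrelativized classes).

Theorem: the following are equivalent.

1. Π₂ᵖ is contained in Σ₂ᵖ/poly.
2. Some problem in TFNP/poly is complete under many-one reductions with advice.
3. Some problem in TFNP/poly is complete under Turing reductions with advice.
4. There are countably many problems in TFNP/poly such that each problem in TFNP/poly is reducible to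
   one of them under Turing reductions with advice.

By a theorem of Yap (not used here) 1 implies that the polynomial hierarchy collapses.  So the
nonuniform version of the question has the expected answer (there is no complete problem), unless
the polynomial hierarchy collapses.  For the uniform question no such implication is known.
Item 4 shows a dichotomy: either a single problem is enough, or no countable family of problems is;
in the second case some problem in TFNP/poly does not reduce to any total search problem without
advice, as there are countably many of these.

Proof.  1 implies 2: a problem of TFNP/poly restricted to the instances of length `n` is described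
by a string `w` of polynomial length (a machine, a clock, a length bound and the advice).  That
`w` describes a total problem is a property in Π₂ᵖ, so by 1 it is equivalent to: there is a `u` such
that for all `v`, `E(w, u, v)`, where `E` is decidable in polynomial time with advice.  An instance
of the complete problem consists of `w`, `u` and an instance `x` of the problem described by `w`;
its solutions are the solutions of `x`, and the strings `v` such that `E(w, u, v)` fails.

4 implies 1: let `T k` be the problems of the family, and let `L` be in Π₂ᵖ: a string `w` is in `L` if
for all `u` there is a `y` with `Q(w, u, y)`.  If `w` belongs to `L`, then searching for `y`, given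
`u`, is a total problem with advice `w`.  By a diagonal argument there are `k` and a polynomial `D`
such that for all `w` in `L` this problem has a reduction to `T k` (a pair of programs with advice,
number of queries and time) of size at most `D(|w|)`; otherwise one could combine strings `w` of
different lengths to a problem with advice which does not reduce to any `T k`.  So `w` is in `L` if
and only if there is a reduction of size at most `D(|w|)` such that for all `u` and all possible
answers of `T k` the reduction gives a `y` with `Q(w, u, y)`; if `w` is not in `L` then this fails
for all reductions, as `T k` is total.
-/

set_option autoImplicit false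

namespace Pool.Agent.Results.MP_0a7732_lc.WithAdvice

open Pool.Agent.H65.NU

/-- **TFNP/poly has a complete problem (under many-one or Turing reductions with advice) if and
only if Π₂ᵖ is contained in Σ₂ᵖ/poly; otherwise no countable family of problems in TFNP/poly is
cofinal.** -/
theorem result (O : List Bool → Bool) : List.TFAE [
    ∀ L : Set (List Bool), InPi2 O L → InSigma2Poly O L,
    ∃ T : TFNPpoly O, ∀ S : TFNPpoly O, S.Reduces T,
    ∃ T : TFNPpoly O, ∀ S : TFNPpoly O, S.TuringReduces T,
    ∃ T : ℕ → TFNPpoly O, ∀ S : TFNPpoly O, ∃ k, S.TuringReduces (T k)] := by
  tfae_have 1 → 2 := complete_of_pi2
  tfae_have 2 → 3 := fun ⟨T, hT⟩ => ⟨T, fun S => TFNPpoly.TuringReduces.of_reduces (hT S)⟩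
  tfae_have 3 → 4 := fun ⟨T, hT⟩ => ⟨fun _ => T, fun S => ⟨0, hT S⟩⟩
  tfae_have 4 → 1 := fun ⟨_, hT⟩ _ hL => pi2_of_family hT hL
  tfae_finish

end Pool.Agent.Results.MP_0a7732_lc.WithAdvice
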